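import Pool.Agent.Work.MP_a5099b_nt.P2.Phi

/-!
# Module P2/Main: parity of the multiplicities for level two

`Φ₂(X, X) = -(X - 1728)(X - 8000)(X + 3375)²`, `Φ₂(-3375, Y) = (Y + 3375)² (Y - 16581375)`, and
`16581375 + 3375 = 2·3⁶·5³·7·13`.
-/

set_option autoImplicit false

namespace Pool.Agent.SS

open Pool.Agent.Work.CM Polynomial

theorem PhiAt_two {A : Type*} [CommRing A] (x : A) : PhiAt 2 x =
    X ^ 3 + C (-x ^ 2 + 1488 * x - 162000) * X ^ 2 +
      C (1488 * x ^ 2 + 40773375 * x + 8748000000) * X +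
      C (x ^ 3 - 162000 * x ^ 2 + 8748000000 * x - 157464000000000) := by
  rw [PhiAt, Phi_two, phi2]
  simp only [Polynomial.map_add, Polynomial.map_mul, Polynomial.map_pow, map_X, map_C]
  simp only [AlgHom.toRingHom_eq_coe, RingHom.coe_coe, map_add, map_sub, map_mul, map_pow,
    map_neg, aeval_X, map_ofNat]

theorem PhiAt_two_eval {A : Type*} [CommRing A] (x y : A) : (PhiAt 2 x).eval y =
    y ^ 3 + (-x ^ 2 + 1488 * x - 162000) * y ^ 2 +
      (1488 * x ^ 2 + 40773375 * x + 8748000000) * y +
      (x ^ 3 - 162000 * x ^ 2 + 8748000000 * x - 157464000000000) := by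
  rw [PhiAt_two]
  simp only [eval_add, eval_mul, eval_pow, eval_X, eval_C]

theorem PhiAt_two_diag {A : Type*} [CommRing A] (x : A) :
    (PhiAt 2 x).eval x = -((x - 1728) * (x - 8000) * (x + 3375) ^ 2) := by
  rw [PhiAt_two_eval]
  ring

private theorem gen {A : Type*} [CommRing A] (a b : A) :
    X ^ 3 + C (a + a - b) * X ^ 2 + C (a ^ 2 - a * b - a * b) * X + C (-(a ^ 2 * b)) =
      (X - C (-a)) ^ 2 * (X - C b) := by
  simp only [map_neg, map_mul, map_sub, map_pow, map_add]
  ring

theorem PhiAt_two_3375 {A : Type*} [CommRing A] : PhiAt 2 (-3375 : A) =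
    (X - C (-3375)) ^ 2 * (X - C 16581375) := by
  rw [PhiAt_two, ← gen]
  have e1 : (-(-3375 : A) ^ 2 + 1488 * (-3375) - 162000) = 3375 + 3375 - 16581375 := by norm_num
  have e2 : (1488 * (-3375 : A) ^ 2 + 40773375 * (-3375) + 8748000000) =
    3375 ^ 2 - 3375 * 16581375 - 3375 * 16581375 := by norm_num
  have e3 : ((-3375 : A) ^ 3 - 162000 * (-3375) ^ 2 + 8748000000 * (-3375) - 157464000000000) =
    -(3375 ^ 2 * 16581375) := by norm_num
  rw [e1, e2, e3]

theorem phi2_even {q : ℕ} (hq : q.Prime) (h11 : 11 ≤ q) {k : Type*} [Field k] [CharP k q] (y : k)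
    (h1 : y ≠ 1728) (h2 : y ≠ 8000) : Even ((PhiAt 2 y).rootMultiplicity y) := by
  by_cases h3 : y = -3375
  · subst h3
    have h4 : ((-3375 : k) - 16581375) ≠ 0 := by
      intro h
      have h5 : ((16584750 : ℕ) : k) = 0 := by
        push_cast
        linear_combination -h
      have h6 := (CharP.cast_eq_zero_iff k q 16584750).1 h5
      have h7 : q = 13 := by
        have h8 : (16584750 : ℕ) = 2 * 3 ^ 6 * 5 ^ 3 * 7 * 13 := by norm_num
        rw [h8] at h6
        have p2 := Nat.prime_two
        have p3 := Nat.prime_three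
        have p5 := Nat.prime_five
        have p7 : Nat.Prime 7 := by norm_num
        have p13 : Nat.Prime 13 := by norm_num
        rcases (Nat.Prime.dvd_mul hq).1 h6 with h6 | h6
        · rcases (Nat.Prime.dvd_mul hq).1 h6 with h6 | h6
          · rcases (Nat.Prime.dvd_mul hq).1 h6 with h6 | h6
            · rcases (Nat.Prime.dvd_mul hq).1 h6 with h6 | h6
              · have := (Nat.prime_dvd_prime_iff_eq hq p2).1 h6
                omega
              · have := (Nat.prime_dvd_prime_iff_eq hq p3).1 (hq.dvd_of_dvd_pow h6)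
                omega
            · have := (Nat.prime_dvd_prime_iff_eq hq p5).1 (hq.dvd_of_dvd_pow h6)
              omega
          · have := (Nat.prime_dvd_prime_iff_eq hq p7).1 h6
            omega
        · exact (Nat.prime_dvd_prime_iff_eq hq p13).1 h6
      subst h7
      apply h2
      have h9 : ((13 : ℕ) : k) = 0 := CharP.cast_eq_zero k 13
      push_cast at h9
      linear_combination (-875) * h9
    have h9 : rootMultiplicity (-3375 : k) (X - C 16581375) = 0 := by
      apply rootMultiplicity_eq_zero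
      rw [IsRoot, eval_sub, eval_X, eval_C]
      exact h4
    rw [PhiAt_two_3375, rootMultiplicity_mul, rootMultiplicity_X_sub_C_pow, h9]
    · exact ⟨1, rfl⟩
    · exact mul_ne_zero (pow_ne_zero _ (X_sub_C_ne_zero _)) (X_sub_C_ne_zero _)
  · rw [rootMultiplicity_eq_zero]
    · exact ⟨0, rfl⟩
    · rw [IsRoot, PhiAt_two_diag, neg_eq_zero]
      refine mul_ne_zero (mul_ne_zero (sub_ne_zero.2 h1) (sub_ne_zero.2 h2)) (pow_ne_zero _ ?_)
      intro h
      apply h3
      linear_combination h

end Pool.Agent.SS
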