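import Pool.Agent.Work.CM.Tw5
import Pool.Agent.Work.CM.Disc
import Pool.Agent.Work.MP_a5099b_nt.Defs

/-!
# Module P2/Inv: the invariants of a superlattice of index two

`g₂(L') = 60 e² - 4 g₂(L)`, `g₃(L') = 88 e³ - 8 g₂(L) e`, `e = ev L L'` (compare coefficients in `Two.rel`).
With `t = 64 (g₂ - 3 e²) / (12 e² - g₂)`: `j(L') = (t + 256)³ / t²`.
-/

set_option autoImplicit false

namespace Pool.Agent.SS

open Pool.Agent.Work.CM Polynomial

variable {L L' : Submodule ℤ ℂ}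

private theorem key (a b e a' b' : ℂ) (hb : b = 4 * e ^ 3 - a * e)
    (h : ∀ x : ℂ, (4 * (x ^ 2 - e * x + (3 * e ^ 2 - a / 4)) ^ 3 -
      a' * (x ^ 2 - e * x + (3 * e ^ 2 - a / 4)) * (x - e) ^ 2 - b' * (x - e) ^ 3) * (x - e) =
      ((2 * x - e) * (x - e) - (x ^ 2 - e * x + (3 * e ^ 2 - a / 4))) ^ 2 *
        (4 * x ^ 3 - a * x - b)) :
    a' = 60 * e ^ 2 - 4 * a ∧ b' = 88 * e ^ 3 - 8 * a * e := by
  have h' : ∀ t : ℂ, t ≠ 0 → (a' - (60 * e ^ 2 - 4 * a)) * (t ^ 2 + e * t + (3 * e ^ 2 - a / 4)) +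
      (b' - (88 * e ^ 3 - 8 * a * e)) * t = 0 := by
    intro t ht
    have h1 := h (e + t)
    rw [hb] at h1
    have h2 : t ^ 3 * ((a' - (60 * e ^ 2 - 4 * a)) * (t ^ 2 + e * t + (3 * e ^ 2 - a / 4)) +
      (b' - (88 * e ^ 3 - 8 * a * e)) * t) = 0 := by
      linear_combination -h1
    exact (mul_eq_zero.1 h2).resolve_left (pow_ne_zero _ ht)
  have e1 := h' 1 one_ne_zero
  have e2 := h' (-1) (by norm_num)
  have e3 := h' 2 two_ne_zero
  have e4 := h' (-2) (by norm_num)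
  have e5 : a' - (60 * e ^ 2 - 4 * a) = 0 := by
    linear_combination (e3 + e4 - e1 - e2) / 6
  rw [e5] at e1
  constructor
  · linear_combination e5
  · linear_combination e1

theorem two_g2g3 (h : Two L L') : g2 L' = 60 * ev L L' ^ 2 - 4 * g2 L ∧
    g3 L' = 88 * ev L L' ^ 3 - 8 * g2 L * ev L L' := by
  refine key (g2 L) (g3 L) (ev L L') _ _ (by linear_combination -h.cubic) fun x => ?_
  have h1 := congrArg (eval x) h.rel.eq
  simp only [map_one, one_pow, one_mul, eval_mul, eval_sub, eval_pow, eval_X, eval_C,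
    eval_add, eval_ofNat, derivative_add, derivative_sub, derivative_X_pow, derivative_mul,
    derivative_C, derivative_X, zero_mul, mul_one, zero_add, sub_zero, add_zero,
    Nat.cast_ofNat, pow_one, Nat.add_one_sub_one] at h1
  linear_combination h1

/-- The parameter of a superlattice of index two. -/
noncomputable def tt (L L' : Submodule ℤ ℂ) : ℂ :=
  64 * (g2 L - 3 * ev L L' ^ 2) / (12 * ev L L' ^ 2 - g2 L)

theorem two_ne1 (h : Two L L') : g2 L - 3 * ev L L' ^ 2 ≠ 0 := by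
  intro h0
  have h1 := IsLat.disc h.lat
  apply h1
  have h2 := h.cubic
  have h3 : g3 L = 4 * ev L L' ^ 3 - g2 L * ev L L' := by linear_combination -h2
  rw [h3]
  have h4 : g2 L = 3 * ev L L' ^ 2 := by linear_combination h0
  rw [h4]
  ring

theorem two_tt_ne (h : Two L L') : tt L L' ≠ 0 :=
  div_ne_zero (mul_ne_zero (by norm_num) (two_ne1 h)) h.ne0

theorem two_jL_eq (h : Two L L') : jL L' * tt L L' ^ 2 = (tt L L' + 256) ^ 3 := by
  obtain ⟨h2, h3⟩ := two_g2g3 h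
  have n0 := h.ne0
  have n1 := (two_ne1 h)
  have hD : g2 L' ^ 3 - 27 * g3 L' ^ 2 =
      64 * (12 * ev L L' ^ 2 - g2 L) * (g2 L - 3 * ev L L' ^ 2) ^ 2 := by
    rw [h2, h3]
    ring
  have e1 : 60 * ev L L' ^ 2 - 4 * g2 L =
      (16 * (12 * ev L L' ^ 2 - g2 L) + 4 * (g2 L - 3 * ev L L' ^ 2)) / 3 := by ring
  rw [jL, hD, h2, tt, e1]
  generalize 12 * ev L L' ^ 2 - g2 L = u at n0 ⊢
  generalize g2 L - 3 * ev L L' ^ 2 = v at n1 ⊢
  field_simp
  ring

theorem two_jL_base (h : Two L L') : (tt L L' + 16) ^ 3 = jL L * tt L L' := by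
  have n0 := h.ne0
  have n1 := (two_ne1 h)
  have h3 : g3 L = 4 * ev L L' ^ 3 - g2 L * ev L L' := by linear_combination -h.cubic
  have hD : g2 L ^ 3 - 27 * g3 L ^ 2 =
      (12 * ev L L' ^ 2 - g2 L) ^ 2 * (g2 L - 3 * ev L L' ^ 2) := by
    rw [h3]
    ring
  have e1 : g2 L = ((12 * ev L L' ^ 2 - g2 L) + 4 * (g2 L - 3 * ev L L' ^ 2)) / 3 := by ring
  have e2 : g2 L ^ 3 =
      (((12 * ev L L' ^ 2 - g2 L) + 4 * (g2 L - 3 * ev L L' ^ 2)) / 3) ^ 3 := by rw [← e1]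
  rw [jL, hD, tt, e2]
  generalize 12 * ev L L' ^ 2 - g2 L = u at n0 ⊢
  generalize g2 L - 3 * ev L L' ^ 2 = v at n1 ⊢
  field_simp
  ring

end Pool.Agent.SS
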