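import Pool.Agent.Work.MP_a5099b_nt.P2.Three
import Pool.Agent.Work.MP_a5099b_nt.B.PhiX

/-!
# Module P2/Phi: the modular polynomial of level two
-/

set_option autoImplicit false

namespace Pool.Agent.SS

open Pool.Agent.Work.CM Polynomial

noncomputable section

/-- The modular polynomial of level two. -/
def phi2 : ℤ[X][X] :=
  X ^ 3 + C (-X ^ 2 + 1488 * X - 162000) * X ^ 2 + C (1488 * X ^ 2 + 40773375 * X + 8748000000) * X +
    C (X ^ 3 - 162000 * X ^ 2 + 8748000000 * X - 157464000000000)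

theorem two_of_sup {L L' : Submodule ℤ ℂ} (h : Sup 2 L L') : Two L L' := by
  obtain ⟨a, ha, hb⟩ := AddSubgroup.relIndex_eq_two_iff.1 h.idx
  refine ⟨h.lat, h.lat', h.le, -a, L'.neg_mem ha, ?_, ?_⟩
  · intro hn
    have h0 := hb 0 L'.zero_mem
    have h1 : (0 : ℂ) ∈ L.toAddSubgroup := L.zero_mem
    have h2 : 0 + a ∈ L.toAddSubgroup := by
      rw [zero_add]
      have h3 := L.neg_mem hn
      rw [neg_neg] at h3
      exact h3
    rcases h0 with h0 | h0
    · exact h0.2 h1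
    · exact h0.2 h2
  · intro z hz
    rcases hb z hz with h0 | h0
    · right
      rw [sub_neg_eq_add]
      exact h0.1
    · left
      exact h0.1

theorem exists_three {L : Submodule ℤ ℂ} (hL : IsLat L) : ∃ A B D : Submodule ℤ ℂ,
    Two L A ∧ Two L B ∧ Two L D ∧ A ≠ B ∧ B ≠ D ∧ D ≠ A ∧
      ∀ {M : Type} [CommMonoid M] (F : Submodule ℤ ℂ → M),
        ∏ᶠ L' ∈ {L' | Sup 2 L L'}, F L' = F A * F B * F D := by
  classical
  have hc := card_supF Nat.prime_two hL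
  obtain ⟨A, B, D, h1, h2, h3, h4⟩ := Finset.card_eq_three.1 hc
  have m : ∀ x, x ∈ supF 2 L → Two L x := fun x hx =>
    two_of_sup ((mem_supF Nat.prime_two hL).1 hx)
  refine ⟨A, B, D, m A (by rw [h4]; simp), m B (by rw [h4]; simp), m D (by rw [h4]; simp), h1, h3,
    h2.symm, ?_⟩
  intro M _ F
  rw [finprod_Sup Nat.prime_two hL, h4, Finset.prod_insert (by simp [h1, h2]),
    Finset.prod_insert (by simp [h3]), Finset.prod_singleton, mul_assoc]

private theorem prod3 (t1 t2 t3 j Y : ℂ) (h1 : t1 + t2 + t3 = -48)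
    (h2 : t1 * t2 + t2 * t3 + t3 * t1 = 768 - j) (h3 : t1 * t2 * t3 = -4096) :
    (Y * t1 ^ 2 - (t1 + 256) ^ 3) * (Y * t2 ^ 2 - (t2 + 256) ^ 3) * (Y * t3 ^ 2 - (t3 + 256) ^ 3) =
      4096 ^ 2 * (Y ^ 3 + (-j ^ 2 + 1488 * j - 162000) * Y ^ 2 +
        (1488 * j ^ 2 + 40773375 * j + 8748000000) * Y +
        (j ^ 3 - 162000 * j ^ 2 + 8748000000 * j - 157464000000000)) := by
  have key : ∀ t : ℂ, (t ^ 3 + 48 * t ^ 2 + (768 - j) * t + 4096 = 0) →
      Y * t ^ 2 - (t + 256) ^ 3 = -((720 - Y) * t ^ 2 + (j + 195840) * t + 16773120) := by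
    intro t ht
    linear_combination -ht
  have r : ∀ t : ℂ, (t = t1 ∨ t = t2 ∨ t = t3) → t ^ 3 + 48 * t ^ 2 + (768 - j) * t + 4096 = 0 := by
    intro t ht
    have e : t ^ 3 + 48 * t ^ 2 + (768 - j) * t + 4096 = (t - t1) * (t - t2) * (t - t3) := by
      rw [← h2]
      linear_combination t ^ 2 * h1 + h3
    rw [e]
    rcases ht with h | h | h <;> rw [h] <;> ring
  rw [key t1 (r t1 (Or.inl rfl)), key t2 (r t2 (Or.inr (Or.inl rfl))),
    key t3 (r t3 (Or.inr (Or.inr rfl)))]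
  have gen : ∀ a b c : ℂ, (a * t1 ^ 2 + b * t1 + c) * (a * t2 ^ 2 + b * t2 + c) *
      (a * t3 ^ 2 + b * t3 + c) = a ^ 3 * (-4096) ^ 2 + a ^ 2 * b * ((-4096) * (768 - j)) +
        a ^ 2 * c * ((768 - j) ^ 2 - 2 * (-48) * (-4096)) + a * b ^ 2 * ((-4096) * (-48)) +
        a * b * c * ((-48) * (768 - j) - 3 * (-4096)) + a * c ^ 2 * ((-48) ^ 2 - 2 * (768 - j)) +
        b ^ 3 * (-4096) + b ^ 2 * c * (768 - j) + b * c ^ 2 * (-48) + c ^ 3 := by
    intro a b c
    rw [← h1, ← h2, ← h3]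
    ring
  have g := gen (720 - Y) (j + 195840) 16773120
  linear_combination -g

theorem isPhi2 : IsPhi 2 phi2 := by
  have hm : phi2.Monic := by
    unfold phi2
    monicity!
  have hd : phi2.natDegree = 2 + 1 := by
    unfold phi2
    compute_degree!
  refine ⟨hm, hd, ?_⟩
  intro L hL
  obtain ⟨A, B, D, hA, hB, hD, n1, n2, n3, hF⟩ := exists_three hL
  rw [hF]
  obtain ⟨h1, h2, h3⟩ := three_sym hA hB hD n1 n2 n3
  apply Polynomial.funext
  intro Y
  have hp := prod3 _ _ _ _ Y h1 h2 h3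
  rw [← two_jL_eq hA, ← two_jL_eq hB, ← two_jL_eq hD] at hp
  have e : (Y * tt L A ^ 2 - jL A * tt L A ^ 2) * (Y * tt L B ^ 2 - jL B * tt L B ^ 2) *
      (Y * tt L D ^ 2 - jL D * tt L D ^ 2) =
      4096 ^ 2 * ((Y - jL A) * (Y - jL B) * (Y - jL D)) := by
    have h4 : (tt L A * tt L B * tt L D) ^ 2 = 4096 ^ 2 := by rw [h3]; norm_num
    linear_combination ((Y - jL A) * (Y - jL B) * (Y - jL D)) * h4
  rw [e] at hp
  have h5 := mul_left_cancel₀ (by norm_num : (4096 : ℂ) ^ 2 ≠ 0) hp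
  unfold phi2
  simp only [Polynomial.map_add, Polynomial.map_mul, Polynomial.map_pow, map_X, map_C, eval_add,
    eval_mul, eval_pow, eval_X, eval_C, eval_sub]
  rw [h5]
  simp only [AlgHom.toRingHom_eq_coe, RingHom.coe_coe,
    map_add, map_sub, map_mul, map_pow, map_neg, aeval_X, map_ofNat]

theorem Phi_two : Phi 2 = phi2 := IsPhi.unique (isPhi Nat.prime_two) isPhi2

end

end Pool.Agent.SS
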