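import Pool.Agent.Work.MP_a5099b_nt.P2.Inv

/-!
# Module P2/Three: the parameters of the three superlattices of index two

They are the three roots of `(t + 16)³ - j t`.
-/

set_option autoImplicit false

namespace Pool.Agent.SS

open Pool.Agent.Work.CM Polynomial

variable {L A B D : Submodule ℤ ℂ}

private theorem sym (e1 e2 a : ℂ) (ha : a = 4 * (e1 ^ 2 + e1 * e2 + e2 ^ 2)) (h12 : e1 - e2 ≠ 0)
    (h23 : e1 + 2 * e2 ≠ 0) (h31 : 2 * e1 + e2 ≠ 0) :
    64 * (a - 3 * e1 ^ 2) / (12 * e1 ^ 2 - a) = 16 * (e1 + 2 * e2) ^ 2 / ((e1 - e2) * (2 * e1 + e2)) ∧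
    64 * (a - 3 * e2 ^ 2) / (12 * e2 ^ 2 - a) = -16 * (2 * e1 + e2) ^ 2 / ((e1 - e2) * (e1 + 2 * e2)) ∧
    64 * (a - 3 * (-e1 - e2) ^ 2) / (12 * (-e1 - e2) ^ 2 - a) =
      16 * (e1 - e2) ^ 2 / ((e1 + 2 * e2) * (2 * e1 + e2)) := by
  have n1 : 12 * e1 ^ 2 - a = 4 * ((e1 - e2) * (2 * e1 + e2)) := by rw [ha]; ring
  have n2 : 12 * e2 ^ 2 - a = -4 * ((e1 - e2) * (e1 + 2 * e2)) := by rw [ha]; ring
  have n3 : 12 * (-e1 - e2) ^ 2 - a = 4 * ((e1 + 2 * e2) * (2 * e1 + e2)) := by rw [ha]; ring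
  have m1 : a - 3 * e1 ^ 2 = (e1 + 2 * e2) ^ 2 := by rw [ha]; ring
  have m2 : a - 3 * e2 ^ 2 = (2 * e1 + e2) ^ 2 := by rw [ha]; ring
  have m3 : a - 3 * (-e1 - e2) ^ 2 = (e1 - e2) ^ 2 := by rw [ha]; ring
  rw [n1, n2, n3, m1, m2, m3]
  generalize e1 - e2 = x at *
  generalize e1 + 2 * e2 = y at *
  generalize 2 * e1 + e2 = z at *
  refine ⟨?_, ?_, ?_⟩ <;> field_simp <;> ring

theorem three_sym (hA : Two L A) (hB : Two L B) (hD : Two L D) (hAB : A ≠ B) (hBD : B ≠ D)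
    (hDA : D ≠ A) : tt L A + tt L B + tt L D = -48 ∧
      tt L A * tt L B + tt L B * tt L D + tt L D * tt L A = 768 - jL L ∧
      tt L A * tt L B * tt L D = -4096 := by
  have n1 := sub_ne_zero.2 (Two.ev_ne hA hB hAB)
  have n2 := sub_ne_zero.2 (Two.ev_ne hB hD hBD)
  have n3 := sub_ne_zero.2 (Two.ev_ne hD hA hDA)
  have c1 := hA.cubic
  have c2 := hB.cubic
  have hs := Two.ev_sum hA hB hD hAB hBD hDA
  have hd : ev L D = -ev L A - ev L B := by linear_combination hs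
  have s1 : g2 L = 4 * (ev L A ^ 2 + ev L A * ev L B + ev L B ^ 2) := by
    have : (ev L A - ev L B) * (g2 L - 4 * (ev L A ^ 2 + ev L A * ev L B + ev L B ^ 2)) = 0 := by
      linear_combination c2 - c1
    exact sub_eq_zero.1 ((mul_eq_zero.1 this).resolve_left n1)
  have s2 : g3 L = -4 * (ev L A * ev L B * (ev L A + ev L B)) := by
    have e : g3 L = 4 * ev L A ^ 3 - g2 L * ev L A := by linear_combination -c1
    rw [e, s1]
    ring
  rw [hd] at n2 n3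
  have n2' : ev L A + 2 * ev L B ≠ 0 := fun h => n2 (by linear_combination h)
  have n3' : 2 * ev L A + ev L B ≠ 0 := fun h => n3 (by linear_combination -h)
  obtain ⟨t1, t2, t3⟩ := sym (ev L A) (ev L B) (g2 L) s1 n1 n2' n3'
  rw [tt, tt, tt, hd, t1, t2, t3, jL]
  have hD : g2 L ^ 3 - 27 * g3 L ^ 2 =
      16 * ((ev L A - ev L B) * (ev L A + 2 * ev L B) * (2 * ev L A + ev L B)) ^ 2 := by
    rw [s1, s2]
    ring
  have hg : g2 L = 4 / 3 * ((ev L A - ev L B) ^ 2 + (ev L A - ev L B) * (ev L A + 2 * ev L B) +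
      (ev L A + 2 * ev L B) ^ 2) := by
    rw [s1]
    ring
  have hz : 2 * ev L A + ev L B = (ev L A - ev L B) + (ev L A + 2 * ev L B) := by ring
  rw [hD, hg, hz]
  rw [hz] at n3'
  generalize ev L A - ev L B = x at *
  generalize ev L A + 2 * ev L B = y at *
  refine ⟨?_, ?_, ?_⟩
  · field_simp
    ring
  · field_simp
    ring
  · field_simp
    ring

end Pool.Agent.SS
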